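import Pool.Agent.J6H49.OP.Main

/-!
# No `p`-optimal proof systems for `NP`-complete sets although double exponential space is nearly
double exponential time

If `P = NP` then the `NP`-complete sets have `p`-optimal proof systems. The proof needs only that
the second level of the hierarchy over `E`, time `2 ^ O(n)`, is contained in `E` (for it is
a question of this kind whether a function, with a bound for its running time, has satisfiable
values only, for all arguments of a given length `n`, written in binary), or the same for the
classes with times `2 ^ O(2 ^ n)`; and it relativizes. We show that for relativizing proofs this
assumption cannot be weakened: for an arbitrarily slowly growing unbounded function `α` there are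
oracles relative to which all problems in space `2 ^ O(2 ^ n)` are decided in deterministic time
`2 ^ O(2 ^ n * α n)`, likewise for space `2 ^ O(n)` and for polynomial space, and nevertheless no
`NP`-hard set has a `p`-optimal proof system.
-/

set_option autoImplicit false

namespace Pool.Agent.Results.MP_c56612_lc.NearCollapsePOptimal

open MeasureTheory Pool.Agent.NPC Pool.Agent.H628R3.RO Pool.Agent.J6H49.OP

/-- Let `α : ℕ → ℕ` be nondecreasing and unbounded and let `C` be any oracle. There is a map `O` on
the oracles such that `O A` contains `A` and `C` and is nearly collapsed with the function `α`, for
every `A`, and for a random oracle `A` (fair coin tosses) with probability one, relative to `O A` no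
set which is hard for `NP`, in particular no `NP`-complete set, has a `p`-optimal proof system. -/
theorem result (α : ℕ → ℕ) (hα : Monotone α) (hα' : Filter.Tendsto α Filter.atTop Filter.atTop)
    (C : Oracle) : ∃ O : Oracle → Oracle,
      (∀ A, NearlyCollapsed α (O A) ∧ Contains (O A) A ∧ Contains (O A) C) ∧
      ∀ᵐ A ∂randomOracle, ∀ L : Set (List Bool), NPHardRel (O A) L →
        ¬ ∃ P, IsPOptimal (O A) L P := by
  obtain ⟨O, h1, -, h2, -⟩ := main α hα hα' C
  exact ⟨O, h1, h2⟩

end Pool.Agent.Results.MP_c56612_lc.NearCollapsePOptimal
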