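import Pool.Agent.J6H54.RO.FinS

/-!
# No `p`-optimal proof systems for `NP`-complete sets relative to a random oracle

For almost all oracles `A` (membership of the strings in `A` is decided by independent tosses of a
fair coin): no set which is hard for `NP` relative to `A`, in particular no set which is complete
for `NP` relative to `A`, has a `p`-optimal proof system relative to `A`.
-/

set_option autoImplicit false

namespace Pool.Agent.Results.MP_c56612_lc.RandomOraclePOptimal

open MeasureTheory Pool.Agent.NPC Pool.Agent.H628R3.RO

theorem result : ∀ᵐ A ∂randomOracle, ∀ L : Set (List Bool), NPHardRel A L →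
    ∀ P : List Bool → List Bool, ¬ IsPOptimal A L P :=
  Pool.Agent.J6H54.RO.final_S

end Pool.Agent.Results.MP_c56612_lc.RandomOraclePOptimal
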