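import Pool.Agent.J6H56.TF.Proofs

/-!
# Proof systems for `NP`-complete sets: no simulation, even with long advice

Relative to an oracle which is nearly collapsed (for example, polynomial space is contained in time
`n ^ O(α n)`, with an arbitrarily slowly growing function `α`) and which contains any given oracle
`C`, the following holds. For every proof system `P` for a set `L` which is hard for `NP`, for
example an `NP`-complete set, there is another proof system `Q` for `L`, such that the `Q`-proofs
are not translated into `P`-proofs: this fails, for infinitely many lengths, for every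
polynomial-time machine which has random access to one out of `2 ^ ((n - k n) * 2 ^ n)` tables of
advice for the `Q`-proofs of length `n + 1`, if `k` grows faster than the logarithm. If the
shortest `P`-proofs are of polynomial length, for example for the usual proof system for the
satisfiable formulas, then `2 ^ n` times a polynomial is a sufficient number of bits of advice,
since one can list the shortest `P`-proofs of all the `Q n`.

The proof: for the `i`-th pair of a machine `P` and a reduction `F`, there are blocks `(i, x)`, for
all strings `x`, and each block contains a secret string of length `|x|`, or none. The set of the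
names of the blocks which contain a secret is in `NP`. If possible, one makes `P` prove a false
statement, that a secret exists which is missing. If this is not possible, then all the secrets of
the blocks `(i, x)` exist, and `Q` gets the axioms which say this. A machine which finds the
`P`-proofs for the blocks `(i, x)`, for `|x| = n`, must then guess each of the secrets, apart from
polynomially many possibilities, and the number of the tables of secrets for which this is possible
with a given table of advice is at most `P n ^ 2 ^ n`, for a polynomial `P`.
-/

set_option autoImplicit false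

namespace Pool.Agent.Results.MP_c56612_lc.SimulationWithAdvice

open Filter Pool.Agent.NPC Pool.Agent.H628R3.RO
open Pool.Agent.J6H49.OP (NearlyCollapsed Contains)
open Pool.Agent.TH678.GC (join)

/-- The polynomial-time machine `M`, with the oracle `O` and with access to the table of advice `a`,
translates all the `Q`-proofs of length `n + 1` into `P`-proofs of the same strings. -/
def Translates (M : Alg) (O : Oracle) (P Q : List Bool → List Bool) (a : Oracle) (n : ℕ) : Prop :=
  ∀ π : List Bool, π.length = n + 1 → ∃ w, M.out (join O a) π = some w ∧ P w = Q π

/-- Let `α : ℕ → ℕ` be nondecreasing and unbounded, let `C` be an oracle and let `W n` be finite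
sets of tables of advice, such that `|W n| * P n ^ 2 ^ n < 2 ^ (n * 2 ^ n)` for all polynomials `P`
and all large `n`. There is an oracle `O` which is nearly collapsed with the function `α` and
contains `C`, such that, relative to `O`, for every set `L` which is hard for `NP` and for every
proof system `P` for `L`:

* `P` is not `p`-optimal;
* moreover, there is a proof system `Q` for `L` such that for every polynomial-time machine there
  are infinitely many `n` such that the machine, with access to `O` and to a table of advice in
  `W n`, does not translate all the `Q`-proofs of length `n + 1` into `P`-proofs. -/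
theorem result (α : ℕ → ℕ) (hα : Monotone α) (hα' : Tendsto α atTop atTop) (C : Oracle)
    (W : ℕ → Finset Oracle)
    (hW : ∀ P : Polynomial ℕ, ∀ᶠ n in atTop, (W n).card * P.eval n ^ 2 ^ n < 2 ^ (n * 2 ^ n)) :
    ∃ O : Oracle, NearlyCollapsed α O ∧ Contains O C ∧
      ∀ L, NPHardRel O L → ∀ P, IsProofSystem O L P → ¬ IsPOptimal O L P ∧
        ∃ Q, IsProofSystem O L Q ∧
          ∀ M : Alg, ∃ᶠ n in atTop, ∀ a ∈ W n, ¬ Translates M O P Q a n := by
  classical
  have hW' : ∀ P : Polynomial ℕ, ∀ᶠ n in atTop,
      (insert (fun _ => false) (W n)).card * P.eval n ^ 2 ^ n < 2 ^ (n * 2 ^ n) := by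
    intro P
    obtain ⟨N, hN⟩ := Pool.Agent.J6H54.RO.poly_le_two_pow (P + 1)
    filter_upwards [hW (2 * P), eventually_ge_atTop N] with n h1 h2
    have h3 := hN n h2
    simp only [Polynomial.eval_add, Polynomial.eval_one] at h3
    simp only [Polynomial.eval_mul, Polynomial.eval_ofNat] at h1
    have h4 := Finset.card_insert_le (fun _ => false) (W n)
    have h5 : 2 ^ n ≠ 0 := by positivity
    have h6 : P.eval n ^ 2 ^ n < (2 ^ n) ^ 2 ^ n := Nat.pow_lt_pow_left (by omega) h5
    rw [← pow_mul] at h6
    rcases Nat.eq_zero_or_pos (W n).card with h0 | h0
    · rw [h0] at h4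
      calc _ ≤ 1 * P.eval n ^ 2 ^ n := Nat.mul_le_mul_right _ (by omega)
        _ < _ := by rwa [one_mul]
    · have h7 : 2 * P.eval n ^ 2 ^ n ≤ (2 * P.eval n) ^ 2 ^ n := by
        rw [mul_pow]
        exact Nat.mul_le_mul_right _ (Nat.le_self_pow h5 2)
      calc _ ≤ ((W n).card * 2) * P.eval n ^ 2 ^ n := Nat.mul_le_mul_right _ (by omega)
        _ = (W n).card * (2 * P.eval n ^ 2 ^ n) := by ring
        _ ≤ (W n).card * (2 * P.eval n) ^ 2 ^ n := Nat.mul_le_mul_left _ h7
        _ < _ := h1
  obtain ⟨O, h1, h2, h3⟩ := Pool.Agent.J6H56.TF.mainQ α hα hα' C _ hW'
  refine ⟨O, h1, h2, fun L hL P hP => ?_⟩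
  obtain ⟨Q, h4, h5⟩ := h3 L hL P hP
  refine ⟨?_, Q, h4, fun M => (h5 M).mono fun n hn a ha hs => ?_⟩
  · rintro ⟨-, hopt⟩
    obtain ⟨h, hh, hPQ⟩ := hopt Q h4
    obtain ⟨M, hM⟩ := Pool.Agent.J6H49.OP.isFP_lift (B := join O (fun _ => false)) [false]
      (fun x => rfl) hh
    obtain ⟨n, hn⟩ := (h5 M).exists
    obtain ⟨π, -, h6⟩ := hn _ (Finset.mem_insert_self _ _)
    exact h6 (h π) (hM π) (hPQ π)
  · obtain ⟨π, hπ, h6⟩ := hn a (Finset.mem_insert_of_mem ha)
    obtain ⟨w, hw1, hw2⟩ := hs π hπ
    exact h6 w hw1 hw2

end Pool.Agent.Results.MP_c56612_lc.SimulationWithAdvice
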