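import Pool.Agent.J6H49.KW.POpt

/-!
# No `p`-optimal proof systems for `NP`-complete sets although `UP = PSPACE`

If `P = NP` then the `NP`-complete sets have `p`-optimal proof systems. We show that for relativizing
proofs this assumption cannot be replaced by the conjunction of the following ones: `UP ∩ coUP = PSPACE`
(so all complexity classes between `UP` and `PSPACE` are equal, they all have complete sets, and all nonempty
sets in `PSPACE` have optimal proof systems), polynomial space is nearly polynomial time, and `PSPACE` has
a Turing-hard tally set of arbitrarily low unbounded density.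
-/

set_option autoImplicit false

namespace Pool.Agent.Results.MP_c56612_lc.UPEqualsPSPACE

open Filter Pool.Agent.NPC Pool.Agent.H628R3.RO Pool.Agent.J6H49.OP Pool.Agent.J6H49.IP
open Pool.Agent.H620R2.Gauge (IsPSPACE)
open Pool.Agent.TH678.GC (join)
open Pool.Agent.J6H49.KW (tally)

/-- Let `α` and `f` be nondecreasing and unbounded and let `C` be any oracle. There are an oracle `O`
which contains `C` and a tally set `T` such that

* `O` is nearly collapsed with the function `α`,
* relative to `O`, every language in polynomial space is in `UP` and in `coUP`, it is in `P` if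
  `T` is added to the oracle (`T` is Turing-hard for `PSPACE`), and it has an optimal proof system
  if it is not empty,
* `T` has at most `f n` elements of length at most `n`,
* relative to `O`, no `NP`-hard set has a `p`-optimal proof system. -/
theorem result (α f : ℕ → ℕ) (hα : Monotone α) (hα' : Tendsto α atTop atTop)
    (hf : Monotone f) (hf' : Tendsto f atTop atTop) (C : Oracle) :
    ∃ (O : Oracle) (T : ℕ → Bool), NearlyCollapsed α O ∧ Contains O C ∧
      (∀ L, IsPSPACE O L → IsUP O L ∧ IsUP O Lᶜ ∧ IsP (join O (tally T)) L ∧
        (L.Nonempty → ∃ P, IsOptimal O L P)) ∧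
      (∀ n, ((Finset.range (n + 1)).filter fun m => T m = true).card ≤ f n) ∧
      ∀ L, NPHardRel O L → ¬ ∃ P, IsPOptimal O L P := by
  obtain ⟨en, hen⟩ := Pool.Agent.J6H49.KW.exists_algs
  obtain ⟨O, T, X, hW⟩ := Pool.Agent.J6H49.KW.engine hα hα' hf hf' C (I := Set.univ)
    (Filter.Frequently.of_forall fun n => Set.mem_univ n)
    (t := fun a b => Pool.Agent.J6H49.KW.tPO (en a) (en b))
    fun a b => Pool.Agent.J6H49.KW.isTest_PO (en a) (en b)
  refine ⟨O, T, hW.near, hW.cont, fun L hL => ⟨(hW.up L hL).1, (hW.up L hL).2, hW.hard L hL,
    fun hne => ?_⟩, hW.dens, fun L hL => hW.no_pOptimal hen (hW.nonempty hen) hL⟩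
  exact Pool.Agent.J6H49.KW.exists_optimal (Pool.Agent.J6H49.KW.isNP_of_isUP (hW.up L hL).1) hne

end Pool.Agent.Results.MP_c56612_lc.UPEqualsPSPACE
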